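import Pool.Agent.Helper66_ML.Stmts3
import Pool.Agent.Helper50_PP.Bid
import Pool.Agent.Helper50_PP.Ffa
import Pool.Agent.Helper66_PP.Pos1

/-!
# Squad ML, stage 2, LYO: lying over for the central characters
-/

open scoped BigOperators

noncomputable section

namespace Pool.Agent.PP.ML.H28

open Pool.Agent.Helper51_AWC Pool.Agent.Helper79_WRA Pool.Agent.PP Pool.Agent.Helper98_CC

/-- lying over for finite-dimensional algebras over an algebraically closed field -/
theorem lying {F A B : Type} [Field F] [IsAlgClosed F] [CommRing A] [CommRing B] [Algebra F A]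
    [Algebra F B] [Module.Finite F B] (φ : A →ₐ[F] B) (lam : A →ₐ[F] F)
    (h : ∀ a, φ a = 0 → lam a = 0) : ∃ mu : B →ₐ[F] F, ∀ a, mu (φ a) = lam a := by
  let _ : Algebra A B := φ.toRingHom.toAlgebra
  have hAB : ∀ a : A, algebraMap A B a = φ a := fun a => rfl
  have : IsScalarTower F A B := IsScalarTower.of_algebraMap_eq (fun r => (φ.commutes r).symm)
  have hint : Algebra.IsIntegral A B := Algebra.IsIntegral.tower_top F
  have hsurj : Function.Surjective lam.toRingHom := fun c => ⟨algebraMap F A c, lam.commutes c⟩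
  have hP : (RingHom.ker lam.toRingHom).IsMaximal :=
    RingHom.ker_isMaximal_of_surjective lam.toRingHom hsurj
  obtain ⟨Q, hQ, hQP⟩ := Ideal.exists_ideal_over_maximal_of_isIntegral (S := B)
    (RingHom.ker lam.toRingHom) (fun a ha => h a ha)
  let _ : Field (B ⧸ Q) := Ideal.Quotient.field Q
  have hfin : Module.Finite F (B ⧸ Q) := inferInstance
  have hi : Algebra.IsIntegral F (B ⧸ Q) := Algebra.IsIntegral.of_finite F (B ⧸ Q)
  have hb : Function.Bijective (algebraMap F (B ⧸ Q)) :=
    IsAlgClosed.algebraMap_bijective_of_isIntegral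
  let e : F ≃ₐ[F] (B ⧸ Q) := AlgEquiv.ofBijective (Algebra.ofId F (B ⧸ Q)) hb
  refine ⟨(e.symm : (B ⧸ Q) →ₐ[F] F).comp (Ideal.Quotient.mkₐ F Q), fun a => ?_⟩
  change e.symm (Ideal.Quotient.mk Q (φ a)) = lam a
  rw [AlgEquiv.symm_apply_eq]
  change Ideal.Quotient.mk Q (φ a) = algebraMap F (B ⧸ Q) (lam a)
  have h1 : a - algebraMap F A (lam a) ∈ RingHom.ker lam.toRingHom := by
    rw [RingHom.mem_ker]
    change lam (a - algebraMap F A (lam a)) = 0
    rw [map_sub, lam.commutes]
    exact sub_self _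
  rw [← hQP, Ideal.mem_comap, hAB, map_sub, φ.commutes] at h1
  have h2 := Ideal.Quotient.eq.2 h1
  rw [h2]
  rfl

section ext

variable {ℓ : ℕ} {F G : Type} [Field F] [Group G] [Finite G]

theorem ma_co (x : MonoidAlgebra F G) : ma (fun t => x.coeff t) = x :=
  ma_ext fun _ => rfl

/-- restriction to the centraliser of `D` -/
def rs (D : Subgroup G) (a : G → F) : Subgroup.centralizer (D : Set G) → F := fun t => a t

omit [Field F] [Finite G] in
theorem rs_cl {D : Subgroup G} {a : G → F} (ha : IsCl a) : IsCl (rs D a) := fun x y => ha x y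

theorem rs_mul (hF : GoodF ℓ F) {D : Subgroup G} (hD : IsPGroup ℓ D) {a b : G → F} (ha : IsCl a)
    (hb : IsCl b) : rs D (mulF a b) = mulF (rs D a) (rs D b) := by
  have h1 := H66.mulF_sub (X := Subgroup.centralizer (D : Set G)) (a := br D a) (b := br D b)
    (fun t ht => H66.br_of_not_mem ht)
  rw [← H66.br_mulF hF hD (H66.IsCl.inv ha D) (H66.IsCl.inv hb D)] at h1
  have h2 : ∀ c : G → F, (fun t : Subgroup.centralizer (D : Set G) => br D c t) = rs D c :=
    fun c => funext fun t => H66.br_of_mem t.2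
  rw [h2, h2, h2] at h1
  exact h1

/-- the restriction as a map of the centres of the group rings -/
def phi (hF : GoodF ℓ F) {D : Subgroup G} (hD : IsPGroup ℓ D) :
    Subalgebra.center F (MonoidAlgebra F G) →ₐ[F]
      Subalgebra.center F (MonoidAlgebra F (Subgroup.centralizer (D : Set G))) :=
  AlgHom.ofLinearMap
    { toFun := fun z => ⟨ma (rs D (fun t => z.1.coeff t)),
        (isCl_iff _).1 (rs_cl ((isCl_iff (fun t => z.1.coeff t)).2
          (by rw [ma_co]; exact z.2)))⟩
      map_add' := by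
        intro x y
        apply Subtype.ext
        apply ma_ext
        intro t
        change (x.1 + y.1).coeff (t : G) = _
        rw [MonoidAlgebra.coeff_add]
        rfl
      map_smul' := by
        intro c x
        apply Subtype.ext
        apply ma_ext
        intro t
        change (c • x.1).coeff (t : G) = _
        rw [MonoidAlgebra.coeff_smul]
        rfl }
    (by
      apply Subtype.ext
      change ma (rs D (fun t => (1 : MonoidAlgebra F G).coeff t)) = 1
      have h1 : (1 : MonoidAlgebra F G) = ma (dl F (1 : G)) := (ma_dl (F := F) (1 : G)).symm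
      have h2 : (1 : MonoidAlgebra F (Subgroup.centralizer (D : Set G))) = ma (dl F 1) :=
        (ma_dl (F := F) _).symm
      rw [h1, h2]
      congr 1
      funext t
      change dl F (1 : G) (t : G) = dl F 1 t
      unfold dl
      by_cases ht : t = 1
      · rw [if_pos ht, if_pos (by rw [ht]; rfl)]
      · have ht2 : (t : G) ≠ 1 := fun h => ht (Subtype.ext h)
        rw [if_neg ht, if_neg ht2])
    (by
      intro x y
      apply Subtype.ext
      obtain ⟨a, ha, hax⟩ := H50.exists_fn x.2
      obtain ⟨b, hb, hby⟩ := H50.exists_fn y.2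
      change ma (rs D (fun t => (x.1 * y.1).coeff t)) =
        ma (rs D (fun t => x.1.coeff t)) * ma (rs D (fun t => y.1.coeff t))
      rw [← hax, ← hby, ← ma_mul, ← ma_mul]
      congr 1
      exact rs_mul hF hD ha hb)

theorem phi_ma (hF : GoodF ℓ F) {D : Subgroup G} (hD : IsPGroup ℓ D) {a : G → F} (ha : IsCl a) :
    phi hF hD ⟨ma a, (isCl_iff a).1 ha⟩ = ⟨ma (rs D a), (isCl_iff _).1 (rs_cl ha)⟩ := rfl

open Classical in
/-- the class sum of `y` in the centraliser of `D` -/
def cs (F : Type) [Field F] (D : Subgroup G) (y : G) : Subgroup.centralizer (D : Set G) → F :=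
  fun s => if ∃ q ∈ Subgroup.centralizer (D : Set G), (s : G) = q * y * q⁻¹ then 1 else 0

omit [Finite G] in
theorem cs_cl (D : Subgroup G) (y : G) : IsCl (cs F D y) := by
  intro s c
  unfold cs
  have : (∃ q ∈ Subgroup.centralizer (D : Set G), ((c * s * c⁻¹ : Subgroup.centralizer (D : Set G)) : G) =
      q * y * q⁻¹) ↔ ∃ q ∈ Subgroup.centralizer (D : Set G), (s : G) = q * y * q⁻¹ := by
    constructor
    · rintro ⟨q, hq, h⟩
      refine ⟨(c : G)⁻¹ * q, mul_mem (inv_mem c.2) hq, ?_⟩
      have h1 : (s : G) = (c : G)⁻¹ * ((c * s * c⁻¹ : Subgroup.centralizer (D : Set G)) : G) * c := by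
        push_cast
        group
      rw [h1, h]
      group
    · rintro ⟨q, hq, h⟩
      refine ⟨(c : G) * q, mul_mem c.2 hq, ?_⟩
      push_cast
      rw [h]
      group
  by_cases hc : ∃ q ∈ Subgroup.centralizer (D : Set G), (s : G) = q * y * q⁻¹
  · rw [if_pos (this.2 hc), if_pos hc]
  · rw [if_neg (fun h => hc (this.1 h)), if_neg hc]

omit [Finite G] in
theorem cs_out {D : Subgroup G} {y : G} (hy : y ∉ Subgroup.centralizer (D : Set G)) :
    cs F D y = 0 := by
  funext s
  unfold cs
  rw [if_neg]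
  · rfl
  · rintro ⟨q, hq, h⟩
    apply hy
    have h1 : y = q⁻¹ * (s : G) * q := by rw [h]; group
    rw [h1]
    exact mul_mem (mul_mem (inv_mem hq) s.2) hq

omit [Finite G] in
theorem cs_conj {D : Subgroup G} {c : G} (hc : c ∈ Subgroup.centralizer (D : Set G)) (y : G) :
    cs F D (c * y * c⁻¹) = cs F D y := by
  funext s
  unfold cs
  have : (∃ q ∈ Subgroup.centralizer (D : Set G), (s : G) = q * (c * y * c⁻¹) * q⁻¹) ↔
      ∃ q ∈ Subgroup.centralizer (D : Set G), (s : G) = q * y * q⁻¹ := by
    constructor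
    · rintro ⟨q, hq, h⟩
      refine ⟨q * c, mul_mem hq hc, ?_⟩
      rw [h]
      group
    · rintro ⟨q, hq, h⟩
      refine ⟨q * c⁻¹, mul_mem hq (inv_mem hc), ?_⟩
      rw [h]
      group
  by_cases hh : ∃ q ∈ Subgroup.centralizer (D : Set G), (s : G) = q * y * q⁻¹
  · rw [if_pos (this.2 hh), if_pos hh]
  · rw [if_neg (fun h => hh (this.1 h)), if_neg hh]

theorem dl_mulF (z : G) (b : G → F) (t : G) : mulF (dl F z) b t = b (z⁻¹ * t) := by
  classical
  have := Fintype.ofFinite G
  unfold mulF
  rw [finsum_eq_sum_of_fintype, Finset.sum_eq_single z]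
  · rw [dl, if_pos rfl, one_mul]
  · intro s _ hs
    rw [dl, if_neg hs, zero_mul]
  · intro h
    exact absurd (Finset.mem_univ _) h

theorem cs_smul {D : Subgroup G} {z : G} (hz : z ∈ D)
    (hzC : z ∈ Subgroup.centralizer (D : Set G)) (y : G) :
    cs F D (z * y) = mulF (dl F ⟨z, hzC⟩) (cs F D y) := by
  funext s
  rw [dl_mulF]
  unfold cs
  have hcomm : ∀ q ∈ Subgroup.centralizer (D : Set G), q * z = z * q := by
    intro q hq
    exact (Subgroup.mem_centralizer_iff.1 hq z hz).symm
  have : (∃ q ∈ Subgroup.centralizer (D : Set G), (s : G) = q * (z * y) * q⁻¹) ↔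
      ∃ q ∈ Subgroup.centralizer (D : Set G),
        (((⟨z, hzC⟩ : Subgroup.centralizer (D : Set G))⁻¹ * s :
          Subgroup.centralizer (D : Set G)) : G) = q * y * q⁻¹ := by
    constructor
    · rintro ⟨q, hq, h⟩
      refine ⟨q, hq, ?_⟩
      push_cast
      rw [h, ← mul_assoc q z y, hcomm q hq]
      group
    · rintro ⟨q, hq, h⟩
      refine ⟨q, hq, ?_⟩
      push_cast at h
      rw [inv_mul_eq_iff_eq_mul] at h
      rw [h, ← mul_assoc q z y, hcomm q hq]
      group
  by_cases hh : ∃ q ∈ Subgroup.centralizer (D : Set G),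
        (((⟨z, hzC⟩ : Subgroup.centralizer (D : Set G))⁻¹ * s :
          Subgroup.centralizer (D : Set G)) : G) = q * y * q⁻¹
  · rw [if_pos (this.2 hh), if_pos hh]
  · rw [if_neg (fun h => hh (this.1 h)), if_neg hh]

omit [Finite G] in
theorem dl_cl {D : Subgroup G} {z : G} (hz : z ∈ D)
    (hzC : z ∈ Subgroup.centralizer (D : Set G)) :
    IsCl (dl F (⟨z, hzC⟩ : Subgroup.centralizer (D : Set G))) := by
  intro x c
  unfold dl
  have hcz : (z : G) * (c : G) = c * z := Subgroup.mem_centralizer_iff.1 c.2 z hz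
  have : c * x * c⁻¹ = ⟨z, hzC⟩ ↔ x = ⟨z, hzC⟩ := by
    rw [Subtype.ext_iff, Subtype.ext_iff]
    push_cast
    constructor
    · intro h
      rw [mul_inv_eq_iff_eq_mul, hcz] at h
      exact mul_left_cancel h
    · intro h
      rw [h, ← hcz]
      group
  by_cases hx : x = ⟨z, hzC⟩
  · rw [if_pos (this.2 hx), if_pos hx]
  · rw [if_neg (fun h => hx (this.1 h)), if_neg hx]

omit [Finite G] in
/-- the restriction of a class sum -/
theorem rs_clsum {D : Subgroup G} (g : G) (t : Finset G)
    (ht : ∀ y ∈ t, y ∈ Subgroup.centralizer (D : Set G) ∧ IsConj g y)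
    (ht' : ∀ y ∈ Subgroup.centralizer (D : Set G), IsConj g y →
      ∃! y₀, y₀ ∈ t ∧ ∃ c ∈ Subgroup.centralizer (D : Set G), y = c * y₀ * c⁻¹) :
    rs D (clsum F (⊤ : Subgroup G) g) = ∑ y ∈ t, cs F D y := by
  classical
  funext s
  rw [Finset.sum_apply]
  by_cases hs : IsConj g (s : G)
  · obtain ⟨y₀, ⟨hy₀, c, hc, hsc⟩, huniq⟩ := ht' s s.2 hs
    rw [Finset.sum_eq_single y₀]
    · obtain ⟨q, hq⟩ := isConj_iff.1 hs
      unfold rs clsum cs
      rw [if_pos ⟨q, Subgroup.mem_top _, hq.symm⟩, if_pos ⟨c, hc, hsc⟩]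
    · intro y hy hne
      unfold cs
      rw [if_neg]
      rintro ⟨q, hq, h⟩
      exact hne (huniq y ⟨hy, q, hq, h⟩)
    · intro h
      exact absurd hy₀ h
  · rw [Finset.sum_eq_zero]
    · unfold rs clsum
      rw [if_neg]
      rintro ⟨q, -, h⟩
      exact hs (isConj_iff.2 ⟨q, h.symm⟩)
    · intro y hy
      unfold cs
      rw [if_neg]
      rintro ⟨q, hq, h⟩
      exact hs ((ht y hy).2.trans (isConj_iff.2 ⟨q, h.symm⟩))

end ext

attribute [local instance] Ideal.Quotient.field

section main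

variable {G : Type} [Group G] [Finite G] {M : Ideal (integralClosure ℤ ℂ)} [hM : M.IsMaximal]

/-- the central character as a homomorphism of the centre of the group ring -/
def lamA {χ : G → ℂ} (hχ : χ ∈ Irr G) :
    Subalgebra.center (FF M) (MonoidAlgebra (FF M) G) →ₐ[FF M] FF M :=
  AlgHom.ofLinearMap
    { toFun := fun z => res M (fun t => z.1.coeff t) χ
      map_add' := by
        intro x y
        have := Fintype.ofFinite G
        rw [← H50.res_add]
        rfl
      map_smul' := by
        intro c x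
        have := Fintype.ofFinite G
        rw [RingHom.id_apply, smul_eq_mul, ← H50.res_smul]
        rfl }
    (by
      change res M (fun t => (1 : MonoidAlgebra (FF M) G).coeff t) χ = 1
      have h1 : (1 : MonoidAlgebra (FF M) G) = ma (dl (FF M) (1 : G)) :=
        (ma_dl (F := FF M) (1 : G)).symm
      rw [h1]
      have := Fintype.ofFinite G
      exact H50.res_one (irr_one_ne hχ) (fun g => omega_integral _ hχ g))
    (by
      intro x y
      obtain ⟨a, ha, hax⟩ := H50.exists_fn x.2
      obtain ⟨b, hb, hby⟩ := H50.exists_fn y.2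
      change res M (fun t => (x.1 * y.1).coeff t) χ =
        res M (fun t => x.1.coeff t) χ * res M (fun t => y.1.coeff t) χ
      rw [← hax, ← hby, ← ma_mul]
      exact (H50.isChar_res hχ).mul a b ha hb)

theorem lamA_ma {χ : G → ℂ} (hχ : χ ∈ Irr G) {a : G → FF M} (ha : IsCl a) :
    lamA hχ ⟨ma a, (isCl_iff a).1 ha⟩ = res M a χ := rfl

end main

/-- row LYO -/
theorem lyo : LyoStmt := by
  intro ℓ hℓ M hM hlM G _ _ χ hχ D hD
  have hF : GoodF ℓ (FF M) := H50.fld ℓ hℓ.out M hlM
  have := hF.closed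
  have hchar := hF.char
  have hfin : Module.Finite (FF M)
      (MonoidAlgebra (FF M) (Subgroup.centralizer (D : Set G))) :=
    Module.Finite.equiv (maL : (Subgroup.centralizer (D : Set G) → FF M) ≃ₗ[FF M] _)
  obtain ⟨mu, hmu⟩ := lying (phi hF hD.1) (lamA hχ) (by
    intro z hz
    obtain ⟨a, ha, haz⟩ := H50.exists_fn z.2
    have hz' : z = ⟨ma a, (isCl_iff a).1 ha⟩ := Subtype.ext haz.symm
    rw [hz', phi_ma hF hD.1 ha] at hz
    rw [hz', lamA_ma hχ ha]
    have h0 : rs D a = 0 := ma_injective ((congrArg Subtype.val hz).trans ma_zero.symm)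
    unfold res
    rw [← finsum_zero (α := ConjClasses G)]
    apply finsum_congr
    intro c
    by_cases hc : Cong M (omega (MonoidHom.id G) χ (Quotient.out c)) 0
    · rw [(red_eq_iff (omega_integral _ hχ _) isIntegral_zero).2 hc, red_zero, mul_zero]
    · obtain ⟨g, hg⟩ := hD.2.2 _ hc
      have hmem : g⁻¹ * Quotient.out c * g ∈ Subgroup.centralizer (D : Set G) := by
        rw [Subgroup.mem_centralizer_iff]
        intro d hd
        have h1 := hg d hd
        calc d * (g⁻¹ * Quotient.out c * g) = g⁻¹ * (g * d * g⁻¹ * Quotient.out c) * g := by group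
          _ = g⁻¹ * (Quotient.out c * (g * d * g⁻¹)) * g := by rw [h1]
          _ = _ := by group
      have h2 := ha (Quotient.out c) g⁻¹
      rw [inv_inv] at h2
      have h3 : a (g⁻¹ * Quotient.out c * g) = 0 := congrFun h0 ⟨_, hmem⟩
      rw [← h2, h3, zero_mul])
  let ν : (Subgroup.centralizer (D : Set G) → FF M) → FF M := fun b =>
    open Classical in if hb : IsCl b then mu ⟨ma b, (isCl_iff b).1 hb⟩ else 0
  have hν : ∀ {b : Subgroup.centralizer (D : Set G) → FF M} (hb : IsCl b),
      ν b = mu ⟨ma b, (isCl_iff b).1 hb⟩ := fun hb => dif_pos hb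
  have hν0 : ν 0 = 0 := by
    rw [hν (b := 0) (fun _ _ => rfl)]
    have : (⟨ma (0 : Subgroup.centralizer (D : Set G) → FF M),
        (isCl_iff _).1 (fun _ _ => rfl)⟩ :
        Subalgebra.center (FF M) (MonoidAlgebra (FF M) (Subgroup.centralizer (D : Set G)))) = 0 :=
      Subtype.ext ma_zero
    rw [this, map_zero]
  have hνadd : ∀ {a b : Subgroup.centralizer (D : Set G) → FF M}, IsCl a → IsCl b →
      ν (a + b) = ν a + ν b := by
    intro a b ha hb
    have hab : IsCl (a + b) := (cfs (FF M) _).add_mem ha hb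
    rw [hν ha, hν hb, hν hab, ← map_add]
    congr 1
    exact Subtype.ext (ma_add a b)
  have hνmul : ∀ {a b : Subgroup.centralizer (D : Set G) → FF M}, IsCl a → IsCl b →
      ν (mulF a b) = ν a * ν b := by
    intro a b ha hb
    rw [hν ha, hν hb, hν (H50.isCl_mulF ha hb), ← map_mul]
    congr 1
    exact Subtype.ext (ma_mul a b)
  have hν1 : ν (dl (FF M) 1) = 1 := by
    rw [hν H46.isIdem_one.1, ← map_one mu]
    congr 1
    exact Subtype.ext (ma_dl 1)
  have hνsum : ∀ t : Finset G, ν (∑ y ∈ t, cs (FF M) D y) = ∑ y ∈ t, ν (cs (FF M) D y) := by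
    classical
    intro t
    have hcl : ∀ s : Finset G, IsCl (∑ y ∈ s, cs (FF M) D y) := fun s =>
      (cfs (FF M) _).sum_mem (fun y _ => cs_cl D y)
    induction t using Finset.induction_on with
    | empty => rw [Finset.sum_empty, Finset.sum_empty, hν0]
    | insert y s hy ih =>
      rw [Finset.sum_insert hy, Finset.sum_insert hy, hνadd (cs_cl D y) (hcl s), ih]
  refine ⟨fun y => ν (cs (FF M) D y), ?_, ?_, ?_, ?_⟩
  · intro y hy
    change ν (cs (FF M) D y) = 0
    rw [cs_out hy, hν0]
  · intro y c hc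
    change ν (cs (FF M) D (c * y * c⁻¹)) = ν (cs (FF M) D y)
    rw [cs_conj hc]
  · intro y _ z hz hzC
    change ν (cs (FF M) D (z * y)) = ν (cs (FF M) D y)
    rw [cs_smul hz hzC, hνmul (dl_cl hz hzC) (cs_cl D y)]
    have hpow : ∀ n : ℕ, ν (dl (FF M) (⟨z, hzC⟩ : Subgroup.centralizer (D : Set G))) ^ n =
        ν (dl (FF M) (⟨z ^ n, pow_mem hzC n⟩ : Subgroup.centralizer (D : Set G))) := by
      intro n
      induction n with
      | zero =>
        rw [pow_zero, ← hν1]
        congr 2
        exact Subtype.ext (pow_zero z).symm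
      | succ n ih =>
        rw [pow_succ, ih, ← hνmul (dl_cl (pow_mem hz n) (pow_mem hzC n)) (dl_cl hz hzC)]
        congr 1
        apply ma_injective
        rw [ma_mul, ma_dl, ma_dl, ma_dl, MonoidAlgebra.single_mul_single, mul_one]
        congr 1
        exact Subtype.ext (pow_succ z n).symm
    obtain ⟨k, hk⟩ := hD.1 ⟨z, hz⟩
    have hk' : z ^ ℓ ^ k = 1 := congrArg Subtype.val hk
    have h1 : ν (dl (FF M) (⟨z, hzC⟩ : Subgroup.centralizer (D : Set G))) ^ (ℓ ^ k) = 1 := by
      rw [hpow, ← hν1]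
      congr 2
      exact Subtype.ext hk'
    have h2 : ν (dl (FF M) (⟨z, hzC⟩ : Subgroup.centralizer (D : Set G))) = 1 := by
      have hexp : ExpChar (FF M) ℓ := ExpChar.prime hℓ.out
      have := (ExpChar.pow_prime_pow_mul_eq_one_iff (R := FF M) ℓ k 1
        (ν (dl (FF M) (⟨z, hzC⟩ : Subgroup.centralizer (D : Set G))))).1 (by rwa [mul_one])
      rwa [pow_one] at this
    rw [h2, one_mul]
  · intro g t ht ht'
    change red M (omega (MonoidHom.id G) χ g) = ∑ y ∈ t, ν (cs (FF M) D y)
    rw [← hνsum, ← rs_clsum g t ht ht', hν (rs_cl (H50.isCl_clsum g)),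
      ← phi_ma hF hD.1 (H50.isCl_clsum g), hmu, lamA_ma hχ (H50.isCl_clsum g),
      H50.res_clsum]
    rfl

end Pool.Agent.PP.ML.H28
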